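import Mathlib
import Pool.Agent.TeamU.BDefs
import Pool.Agent.U426.TU.Stm

/-!
# Project TU (helper426): the rational part.  Statements.

`Over`, `Splits`, `Unr`, `ClTriv`, `SU`, `SE`, `SqMod` are in `Pool/Agent/TeamU/BDefs.lean`; the
model for this part is `Pool/Agent/TeamU/HasseNorm.lean` (Hasse norm theorem for unramified quadratic
extensions of totally real fields in which `2` splits totally).
-/

set_option autoImplicit false

namespace Pool.Agent.U426.TU

open NumberField IsDedekindDomain Module Pool.Agent.TeamU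

/-- local squares at `v` (no completions): `x = y² u` with `u ≡ 1` modulo `4 𝔭` -/
def LSq {M : Type*} [Field M] [NumberField M] (v : HeightOneSpectrum (𝓞 M)) (x : M) : Prop :=
  ∃ y u : M, x = y ^ 2 * u ∧ y ≠ 0 ∧ v.valuation M (u - 1) < v.valuation M 4

/-- **SPL**: a local square splits. -/
def S_SPL : Prop := ∀ (M : Type) [Field M] [NumberField M] (E : Type) [Field E] [NumberField E]
  [Algebra M E], finrank M E = 2 → ∀ (v : HeightOneSpectrum (𝓞 M)) (x : M), x ≠ 0 →
  ∀ z : E, z ^ 2 = algebraMap M E x → z ∉ (algebraMap M E).range → LSq v x → Splits E v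

/-- **IDX**: the index of the local squares. -/
def S_IDX : Prop := ∀ (M : Type) [Field M] [NumberField M],
  ∃ (W : HeightOneSpectrum (𝓞 M) → Subgroup Mˣ) (k : HeightOneSpectrum (𝓞 M) → ℕ),
    (∀ v x, x ∈ W v ↔ LSq v (x : M)) ∧ (∀ v, (W v).index ≠ 0 ∧ (W v).index ≤ 2 ^ k v) ∧
    (∀ v : HeightOneSpectrum (𝓞 M), (2 : 𝓞 M) ∉ v.asIdeal → k v = 2) ∧
    ∀ S : Finset (HeightOneSpectrum (𝓞 M)),
      (∀ v : HeightOneSpectrum (𝓞 M), (2 : 𝓞 M) ∈ v.asIdeal → v ∈ S) →
      ∑ v ∈ S, k v = 2 * S.card + finrank ℚ M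

/-- **HN**: the Hasse norm theorem for certain units and quadratic extensions of totally complex
fields. -/
def S_HN : Prop := ∀ (M : Type) [Field M] [NumberField M] (E : Type) [Field E] [NumberField E]
  [Algebra M E], finrank M E = 2 → (∀ w : InfinitePlace M, w.IsComplex) →
  ∀ (z : E) (d : M), z ^ 2 = algebraMap M E d → z ∉ (algebraMap M E).range →
  (∀ v : HeightOneSpectrum (𝓞 M), (2 : 𝓞 M) ∈ v.asIdeal → Splits E v) →
  ∀ a : Mˣ, (∀ v : HeightOneSpectrum (𝓞 M), v.valuation M (a : M) = 1) →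
  (∀ v : HeightOneSpectrum (𝓞 M), (∀ y : M, v.valuation M d ≠ v.valuation M y ^ 2) →
    LSq v (a : M)) →
  ∃ α : E, Algebra.norm M α = (a : M)

/-- **APP**: the application of HN: sums of three squares. -/
def S_APP : Prop := S_HN → S_SQ

end Pool.Agent.U426.TU
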